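import Pool.Agent.H17.P3.Glue

set_option autoImplicit false

/-!
The code side (MP_a46c6f_co, target (C)): a rooted critical code gives an inverse of the reduced
Laplacian in which closed pairs have midpoints and every induced path with colours `0110` has a bad
point.
-/

namespace Pool.Agent.H77.P3

open Pool.Agent.H98.Code Pool.Agent.H17.TR Pool.Agent.H17.P3

section
variable {V : Type} [Fintype V]

/-- the Laplacian -/
def lap (H : V → V → ZMod 2) (p : V → ZMod 2) (v : V) : ZMod 2 := ∑ w, H v w * (p v + p w)

/-- the degree -/
def deg (H : V → V → ZMod 2) (v : V) : ZMod 2 := ∑ w, H v w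

theorem lap_eq (H : V → V → ZMod 2) (p : V → ZMod 2) (v : V) :
    lap H p v = deg H v * p v + ∑ w, H v w * p w := by
  unfold lap deg
  rw [Finset.sum_mul, ← Finset.sum_add_distrib]
  exact Finset.sum_congr rfl fun w _ => by ring

theorem lap_add (H : V → V → ZMod 2) (p q : V → ZMod 2) (v : V) :
    lap H (p + q) v = lap H p v + lap H q v := by
  unfold lap
  rw [← Finset.sum_add_distrib]
  exact Finset.sum_congr rfl fun w _ => by simp only [Pi.add_apply]; ring

/-- the Laplacian is self-adjoint -/
theorem lap_adj {H : V → V → ZMod 2} (hs : ∀ u v, H u v = H v u) (p q : V → ZMod 2) :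
    ∑ v, q v * lap H p v = ∑ v, lap H q v * p v := by
  have h1 : ∑ v, q v * lap H p v = ∑ v, deg H v * p v * q v + ∑ v, ∑ w, H v w * p w * q v := by
    rw [← Finset.sum_add_distrib]
    refine Finset.sum_congr rfl fun v _ => ?_
    rw [lap_eq, mul_add, Finset.mul_sum]
    congr 1
    · ring
    · exact Finset.sum_congr rfl fun w _ => by ring
  have h2 : ∑ v, lap H q v * p v = ∑ v, deg H v * p v * q v + ∑ v, ∑ w, H v w * q w * p v := by
    rw [← Finset.sum_add_distrib]
    refine Finset.sum_congr rfl fun v _ => ?_
    rw [lap_eq, add_mul, Finset.sum_mul]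
    congr 1
    ring
  rw [h1, h2]
  congr 1
  rw [Finset.sum_comm]
  refine Finset.sum_congr rfl fun v _ => Finset.sum_congr rfl fun w _ => ?_
  rw [hs w v]
  ring

/-- the entries of the Laplacian have sum zero -/
theorem lap_sum {H : V → V → ZMod 2} (hs : ∀ u v, H u v = H v u) (p : V → ZMod 2) :
    ∑ v, lap H p v = 0 := by
  have h1 := lap_adj hs p (fun _ => 1)
  simp only [one_mul] at h1
  rw [h1]
  apply Finset.sum_eq_zero
  intro v _
  have : lap H (fun _ => 1) v = 0 := by
    unfold lap
    apply Finset.sum_eq_zero
    intro w _
    rw [show (1 : ZMod 2) + 1 = 0 from by decide, mul_zero]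
  rw [this, zero_mul]

variable {L : Submodule (ZMod 2) (V → K)} {H : V → V → ZMod 2}

/-- the word with first coordinate `p` -/
theorem word_mem (hH : IsMat L H) (p : V → ZMod 2) :
    (fun v => ((p v, deg H v * p v + lap H p v) : K)) ∈ L := by
  rw [hH.mem]
  intro v
  show deg H v * p v + lap H p v = ∑ w, H v w * p w
  rw [lap_eq, ← add_assoc, CharTwo.add_self_eq_zero, zero_add]

theorem snd_eq (hH : IsMat L H) {u : V → K} (hu : u ∈ L) (v : V) :
    (u v).2 = deg H v * (u v).1 + lap H (fun w => (u w).1) v := by
  rw [(hH.mem u).1 hu v, lap_eq, ← add_assoc, CharTwo.add_self_eq_zero, zero_add]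

theorem z2 (a : ZMod 2) : a = 0 ∨ a = 1 := by
  revert a
  decide

/-- the reduced Laplacian is injective -/
theorem inj [DecidableEq V] (hL : IsCode L) {e : V} (hc : CritAt L e) (hH : IsMat L H)
    (p : V → ZMod 2) (he : p e = 0) (h0 : ∀ v, v ≠ e → lap H p v = 0) : p = 0 := by
  by_contra hp
  have hle : lap H p e = 0 := by
    have h1 := lap_sum hH.sym p
    rw [← Finset.add_sum_erase _ _ (Finset.mem_univ e)] at h1
    rw [Finset.sum_eq_zero (s := Finset.univ.erase e)
      (fun v hv => h0 v (Finset.ne_of_mem_erase hv)), add_zero] at h1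
    exact h1
  have hl : ∀ v, lap H p v = 0 := by
    intro v
    by_cases hv : v = e
    · rw [hv, hle]
    · exact h0 v hv
  have hm := word_mem hH p
  have hw := word_mem hH (fun _ => 1)
  have hl1 : ∀ v, lap H (fun _ => 1) v = 0 := by
    intro v
    unfold lap
    apply Finset.sum_eq_zero
    intro w _
    rw [show (1 : ZMod 2) + 1 = 0 from by decide, mul_zero]
  obtain ⟨g, c₁, hc₁, c₂, hc₂, hs, hg1, hg2, hd⟩ := hc _ hm (by
      intro hh
      apply hp
      funext v
      exact congrArg Prod.fst (congrFun hh v))
    (by
      intro v hv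
      have a1 := congrArg Prod.fst hv
      have a2 := congrArg Prod.snd hv
      simp only [z] at a1 a2
      rw [hl v, a1, mul_zero, add_zero] at a2
      exact absurd a2 (by decide))
    (by
      show ((p e, deg H e * p e + lap H p e) : K) = 0
      rw [he, hle, mul_zero, add_zero]
      rfl)
  have hf := hL.iso c₁ hc₁ _ hw
  unfold form at hf
  rw [Finset.sum_eq_single g] at hf
  · rw [hg1] at hf
    revert hf
    simp [kf, z]
  · intro v _ hvg
    have hsv : c₁ v + c₂ v = (p v, deg H v * p v + lap H p v) := congrFun hs v
    show kf (c₁ v) ((1, deg H v * 1 + lap H (fun _ => 1) v) : K) = 0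
    rw [hl1 v]
    rcases hd v hvg with h1 | h1
    · rw [h1]
      simp [kf]
    · rw [h1, add_zero] at hsv
      rw [hsv, hl v]
      simp only [kf]
      generalize deg H v = a
      generalize p v = b
      revert a b
      decide
  · intro hh
    exact absurd (Finset.mem_univ g) hh

/-- the inverse of the reduced Laplacian -/
theorem exists_inv [DecidableEq V] (hL : IsCode L) {e : V} (hc : CritAt L e) (hH : IsMat L H) :
    ∃ M : V → V → ZMod 2, (∀ x y, M x y = M y x) ∧ (∀ x, M e x = 0) ∧
      (∀ u, u ≠ e → ∀ v, lap H (fun w => M w v) u = if u = v then 1 else 0) := by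
  have hsurj : Function.Surjective
      (fun (p : V → ZMod 2) (v : V) => if v = e then p e else lap H p v) := by
    rw [← Finite.injective_iff_surjective]
    intro p q hpq
    have hpe : p e = q e := by
      have := congrFun hpq e
      simpa using this
    have h1 : p + q = 0 := by
      apply inj hL hc hH
      · rw [Pi.add_apply, hpe, CharTwo.add_self_eq_zero]
      · intro v hv
        have := congrFun hpq v
        simp only [if_neg hv] at this
        rw [lap_add, this, CharTwo.add_self_eq_zero]
    funext v
    have h2 := congrFun h1 v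
    rw [Pi.add_apply, Pi.zero_apply] at h2
    revert h2
    generalize p v = a
    generalize q v = b
    revert a b
    decide
  choose m hm using fun y : V => hsurj (fun v => if v = e then 0 else if v = y then 1 else 0)
  have hme : ∀ y, m y e = 0 := by
    intro y
    have := congrFun (hm y) e
    simpa using this
  have hml : ∀ y v, v ≠ e → lap H (m y) v = if v = y then 1 else 0 := by
    intro y v hv
    have := congrFun (hm y) v
    simpa only [if_neg hv] using this
  have hme' : ∀ v, m e v = 0 := by
    intro v
    have : m e = 0 := by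
      apply inj hL hc hH _ (hme e)
      intro v hv
      rw [hml e v hv, if_neg hv]
    rw [this]
    rfl
  have hsy : ∀ x y, m x y = m y x := by
    intro x y
    by_cases hx : x = e
    · rw [hx, hme', hme]
    by_cases hy : y = e
    · rw [hy, hme', hme]
    have h1 := lap_adj hH.sym (m y) (m x)
    have h2 : ∑ v, m x v * lap H (m y) v = m x y := by
      rw [Finset.sum_eq_single y]
      · rw [hml y y hy, if_pos rfl, mul_one]
      · intro v _ hv
        by_cases hve : v = e
        · rw [hve, hme, zero_mul]
        · rw [hml y v hve, if_neg hv, mul_zero]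
      · intro hh
        exact absurd (Finset.mem_univ y) hh
    have h3 : ∑ v, lap H (m x) v * m y v = m y x := by
      rw [Finset.sum_eq_single x]
      · rw [hml x x hx, if_pos rfl, one_mul]
      · intro v _ hv
        by_cases hve : v = e
        · rw [hve, hme, mul_zero]
        · rw [hml x v hve, if_neg hv, zero_mul]
      · intro hh
        exact absurd (Finset.mem_univ x) hh
    rw [← h2, ← h3, h1]
  refine ⟨fun x y => m y x, fun x y => hsy y x, fun x => hme x, ?_⟩
  intro u hu v
  exact hml v u hu

section
variable [DecidableEq V] {e : V} {M : V → V → ZMod 2}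

/-- recovering the first coordinate -/
theorem recover (hH : IsMat L H) (hM : ∀ x y, M x y = M y x) (he : ∀ x, M e x = 0)
    (hi : ∀ u, u ≠ e → ∀ v, lap H (fun w => M w v) u = if u = v then 1 else 0)
    (p : V → ZMod 2) (hp : p e = 0) (w : V) : p w = ∑ v, M w v * lap H p v := by
  have h1 := lap_adj hH.sym p (fun v => M v w)
  have h2 : ∑ v, M w v * lap H p v = ∑ v, (fun v => M v w) v * lap H p v :=
    Finset.sum_congr rfl fun v _ => by rw [hM w v]
  rw [h2, h1]
  by_cases hw : w = e
  · rw [hw, hp]
    symm
    apply Finset.sum_eq_zero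
    intro v _
    have : lap H (fun v => M v e) v = 0 := by
      unfold lap
      apply Finset.sum_eq_zero
      intro x _
      show H v x * (M v e + M x e) = 0
      rw [hM v e, hM x e, he, he, add_zero, mul_zero]
    rw [this, zero_mul]
  · rw [Finset.sum_eq_single w]
    · rw [hi w hw w, if_pos rfl, one_mul]
    · intro v _ hv
      by_cases hve : v = e
      · rw [hve, hp, mul_zero]
      · rw [hi v hve w, if_neg hv, zero_mul]
    · intro hh
      exact absurd (Finset.mem_univ w) hh

/-- **the splitting lemma**: a closed set `T` splits -/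
theorem split (hc : CritAt L e) (hH : IsMat L H) (hM : ∀ x y, M x y = M y x)
    (he : ∀ x, M e x = 0)
    (hi : ∀ u, u ≠ e → ∀ v, lap H (fun w => M w v) u = if u = v then 1 else 0)
    (T : Finset V) (heT : e ∉ T) (hT : T.Nonempty) (heven : ∑ _x ∈ T, (1 : ZMod 2) = 0)
    (hcol : ∀ w ∈ T, ∑ x ∈ T, M w x = 1) :
    ∃ (g : V) (σ : V → ZMod 2), ∑ x ∈ T, σ x = 1 ∧
      (∀ w ∈ T, ∑ x ∈ T, M w x * σ x + M w g = σ w) ∧
      ∀ w, ∑ x ∈ T, M w x = 0 → ∑ x ∈ T, M w x * σ x + M w g = 0 := by
  set q : V → ZMod 2 := fun w => ∑ x ∈ T, M w x with hq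
  have hqe : q e = 0 := Finset.sum_eq_zero fun x _ => he x
  have hlq' : ∀ v, lap H q v = ∑ x ∈ T, lap H (fun w => M w x) v := by
    intro v
    unfold lap
    rw [Finset.sum_comm]
    refine Finset.sum_congr rfl fun w _ => ?_
    rw [← Finset.mul_sum, hq, ← Finset.sum_add_distrib]
  have hlq1 : ∀ v, v ≠ e → lap H q v = if v ∈ T then 1 else 0 := by
    intro v hv
    rw [hlq' v]
    rw [Finset.sum_congr rfl fun x _ => hi v hv x]
    rw [Finset.sum_ite_eq]
  have hlq : ∀ v, lap H q v = if v ∈ T then 1 else 0 := by
    intro v
    by_cases hv : v = e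
    · subst hv
      rw [if_neg heT]
      have h1 := lap_sum hH.sym q
      rw [← Finset.add_sum_erase _ _ (Finset.mem_univ v),
        Finset.sum_congr rfl fun x hx => hlq1 x (Finset.ne_of_mem_erase hx)] at h1
      rw [← Finset.sum_filter] at h1
      have h2 : (Finset.univ.erase v).filter (fun x => x ∈ T) = T := by
        ext x
        simp only [Finset.mem_filter, Finset.mem_erase, Finset.mem_univ, and_true]
        constructor
        · exact fun h => h.2
        · intro hx
          exact ⟨fun h => heT (h ▸ hx), hx⟩
      rw [h2, heven, add_zero] at h1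
      exact h1
    · exact hlq1 v hv
  have hm := word_mem hH q
  obtain ⟨g, c₁, hc₁, c₂, hc₂, hs, hg1, hg2, hd⟩ := hc _ hm (by
      intro hh
      obtain ⟨x, hx⟩ := hT
      have h1 := congrArg Prod.fst (congrFun hh x)
      have h2 : q x = 1 := hcol x hx
      simp only [Pi.zero_apply, Prod.fst_zero] at h1
      rw [h2] at h1
      exact absurd h1 (by decide))
    (by
      intro v hv
      have a1 := congrArg Prod.fst hv
      have a2 := congrArg Prod.snd hv
      simp only [z] at a1 a2
      rw [hlq v, a1, mul_zero, zero_add] at a2
      by_cases hvT : v ∈ T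
      · have h2 : q v = 1 := hcol v hvT
        rw [h2] at a1
        exact absurd a1 (by decide)
      · rw [if_neg hvT] at a2
        exact absurd a2 (by decide))
    (by
      show ((q e, deg H e * q e + lap H q e) : K) = 0
      rw [hqe, hlq, if_neg heT, mul_zero, add_zero]
      rfl)
  have hsv : ∀ v, c₁ v + c₂ v = (q v, deg H v * q v + lap H q v) := fun v => congrFun hs v
  have hgT : g ∉ T := by
    intro hg
    have h1 := hsv g
    have h2 : q g = 1 := hcol g hg
    rw [hg1, hg2, h2] at h1
    have := congrArg Prod.fst h1
    simp [z] at this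
  have hce : (c₁ e).1 = 0 := by
    by_cases hge : e = g
    · rw [hge, hg1]
      rfl
    · have h1 := hsv e
      rw [hqe, hlq, if_neg heT, mul_zero, add_zero] at h1
      rcases hd e hge with h3 | h3
      · rw [h3]
        rfl
      · rw [h3, add_zero] at h1
        rw [h1]
  set p : V → ZMod 2 := fun w => (c₁ w).1 with hp
  have hsnd : ∀ v, (c₁ v).2 = deg H v * p v + lap H p v := snd_eq hH hc₁
  -- the values of the Laplacian
  have hz0 : ∀ v, c₁ v = 0 → p v = 0 ∧ lap H p v = 0 := by
    intro v hv
    have h1 : p v = 0 := congrArg Prod.fst hv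
    have h2 := hsnd v
    rw [h1, mul_zero, zero_add, hv] at h2
    exact ⟨h1, h2.symm⟩
  have hz1 : ∀ v, c₂ v = 0 → p v = q v ∧ lap H p v = lap H q v := by
    intro v hv
    have h3 := hsv v
    rw [hv, add_zero] at h3
    have h1 : p v = q v := congrArg Prod.fst h3
    have h2 := hsnd v
    rw [h1, h3] at h2
    exact ⟨h1, (add_left_cancel h2).symm⟩
  have hpg : p g = 0 := congrArg Prod.fst hg1
  have hlg : lap H p g = 1 := by
    have h2 := hsnd g
    rw [hpg, mul_zero, zero_add, hg1] at h2
    exact h2.symm
  have hl0 : ∀ v, v ∉ T → v ≠ g → lap H p v = 0 := by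
    intro v hvT hvg
    rcases hd v hvg with h3 | h3
    · exact (hz0 v h3).2
    · rw [(hz1 v h3).2, hlq, if_neg hvT]
  -- a sum over all vertices
  have hsum : ∀ f : V → ZMod 2, ∑ v, f v * lap H p v = ∑ x ∈ T, f x * lap H p x + f g := by
    intro f
    have h1 : ∑ v, f v * lap H p v = ∑ x ∈ insert g T, f x * lap H p x := by
      symm
      apply Finset.sum_subset (Finset.subset_univ _)
      intro x _ hx
      rw [Finset.mem_insert, not_or] at hx
      rw [hl0 x hx.2 hx.1, mul_zero]
    rw [h1, Finset.sum_insert hgT, hlg, mul_one, add_comm]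
  refine ⟨g, lap H p, ?_, ?_, ?_⟩
  · have h1 := hsum (fun _ => 1)
    simp only [one_mul] at h1
    rw [lap_sum hH.sym] at h1
    revert h1
    generalize ∑ x ∈ T, lap H p x = a
    revert a
    decide
  · intro w hw
    rw [← hsum, ← recover hH hM he hi p hce w]
    have hwg : w ≠ g := fun h => hgT (h ▸ hw)
    rcases hd w hwg with h3 | h3
    · rw [(hz0 w h3).1, (hz0 w h3).2]
    · rw [(hz1 w h3).1, (hz1 w h3).2, hlq, if_pos hw]
      exact hcol w hw
  · intro w hw
    rw [← hsum, ← recover hH hM he hi p hce w]
    by_cases hwg : w = g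
    · rw [hwg, hpg]
    · rcases hd w hwg with h3 | h3
      · exact (hz0 w h3).1
      · rw [(hz1 w h3).1]
        exact hw

end

end

/-- **the code side** -/
theorem codeSide : CodeSide := by
  intro V _ _ L e H hL hc hH
  obtain ⟨M, hM, he, hi⟩ := exists_inv hL hc hH
  refine ⟨M, hM, he, hi, ?_, ?_⟩
  · intro u v huu huv
    have hne : u ≠ v := by
      rintro rfl
      exact huv rfl
    have hue : e ≠ u := by
      rintro rfl
      exact huv (by rw [he, he])
    have hve : e ≠ v := by
      rintro rfl
      exact huv (by rw [hM u e, he, huu, he])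
    obtain ⟨g, σ, h1, h2, h3⟩ := split hc hH hM he hi {u, v}
      (by simp [hue, hve]) ⟨u, by simp⟩
      (by rw [Finset.sum_pair hne]; decide)
      (by
        intro w hw
        rw [Finset.sum_pair hne]
        rcases Finset.mem_insert.1 hw with rfl | hw
        · revert huv
          generalize M w w = a
          generalize M w v = b
          revert a b
          decide
        · rw [Finset.mem_singleton] at hw
          subst hw
          rw [hM w u, ← huu]
          revert huv
          generalize M u u = a
          generalize M u w = b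
          revert a b
          decide)
    simp only [Finset.sum_pair hne] at h1 h2 h3
    have e1 := h2 u (by simp)
    have e2 := h2 v (by simp)
    rw [hM v u, ← huu, hM v g] at e2
    rw [hM u g] at e1
    have hgu : M g u = M u v ∧ M g v = M u v := by
      revert e1 e2 h1 huv
      generalize M u u = a
      generalize M u v = b
      generalize M g u = c
      generalize M g v = d
      generalize σ u = s
      generalize σ v = t
      revert a b c d s t
      decide
    have e3 := h3 g (by rw [hgu.1, hgu.2, CharTwo.add_self_eq_zero])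
    rw [hgu.1, hgu.2] at e3
    have hgg : M g g = M u v := by
      revert e3 h1
      generalize M u v = b
      generalize M g g = c
      generalize σ u = s
      generalize σ v = t
      revert b c s t
      decide
    refine ⟨g, ?_, ?_, ?_, ?_⟩
    · rw [hgg]
      exact huv
    · rw [hgu.1, hgg]
    · rw [hgu.2, hgg]
    · intro x hx
      have e4 := h3 x (by rw [hM x u, hM x v, hx, CharTwo.add_self_eq_zero])
      rw [hM x u, hM x v, ← hx, hM x g] at e4
      revert e4 h1
      generalize M u x = b
      generalize M g x = c
      generalize σ u = s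
      generalize σ v = t
      revert b c s t
      decide
  · intro a b c d h4 haa hbb hcc hdd
    obtain ⟨hab, hbc, hcd, hac, had, hbd⟩ := h4
    have n01 : (0 : ZMod 2) ≠ 1 := by decide
    have nab : a ≠ b := by
      rintro rfl
      exact n01 (haa.symm.trans hbb)
    have nac : a ≠ c := by
      rintro rfl
      exact n01 (haa.symm.trans hcc)
    have nad : a ≠ d := by
      rintro rfl
      exact n01 (hbd.symm.trans (by rw [hM b a]; exact hab))
    have nbc : b ≠ c := by
      rintro rfl
      exact n01 (hac.symm.trans hab)
    have nbd : b ≠ d := by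
      rintro rfl
      exact n01 (hdd.symm.trans hbb)
    have ncd : c ≠ d := by
      rintro rfl
      exact n01 (hdd.symm.trans hcc)
    have nea : e ≠ a := by
      rintro rfl
      exact n01 ((he b).symm.trans hab)
    have neb : e ≠ b := by
      rintro rfl
      exact n01 ((he c).symm.trans hbc)
    have nec : e ≠ c := by
      rintro rfl
      exact n01 ((he d).symm.trans hcd)
    have ned : e ≠ d := by
      rintro rfl
      exact n01 ((he c).symm.trans (by rw [hM e c]; exact hcd))
    have hsum : ∀ f : V → ZMod 2, ∑ x ∈ ({a, b, c, d} : Finset V), f x =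
        f a + (f b + (f c + f d)) := by
      intro f
      rw [Finset.sum_insert (by simp [nab, nac, nad]), Finset.sum_insert (by simp [nbc, nbd]),
        Finset.sum_pair ncd]
    obtain ⟨g, σ, h1, h2, h3⟩ := split hc hH hM he hi {a, b, c, d}
      (by simp [nea, neb, nec, ned]) ⟨a, by simp⟩
      (by rw [hsum]; decide)
      (by
        intro w hw
        rw [hsum]
        simp only [Finset.mem_insert, Finset.mem_singleton] at hw
        rcases hw with rfl | rfl | rfl | rfl
        · rw [haa, hab, hac, had]; decide
        · rw [hM w a, hab, hbb, hbc, hbd]; decide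
        · rw [hM w a, hM w b, hac, hbc, hcc, hcd]; decide
        · rw [hM w a, hM w b, hM w c, had, hbd, hcd, hdd]; decide)
    simp only [hsum] at h1 h2 h3
    have ea := h2 a (by simp)
    have eb := h2 b (by simp)
    have ec := h2 c (by simp)
    have ed := h2 d (by simp)
    rw [haa, hab, hac, had, hM a g] at ea
    rw [hM b a, hab, hbb, hbc, hbd, hM b g] at eb
    rw [hM c a, hM c b, hac, hbc, hcc, hcd, hM c g] at ec
    rw [hM d a, hM d b, hM d c, had, hbd, hcd, hdd, hM d g] at ed
    refine ⟨g, ⟨?_, ?_⟩, ?_⟩
    · clear eb ec h2 h3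
      revert ea ed h1
      generalize M g a = x
      generalize M g d = y
      generalize σ a = s
      generalize σ b = t
      generalize σ c = p
      generalize σ d = q
      revert x y s t p q
      decide
    · clear ea ed h2 h3
      revert eb ec h1
      generalize M g b = x
      generalize M g c = y
      generalize σ a = s
      generalize σ b = t
      generalize σ c = p
      generalize σ d = q
      revert x y s t p q
      decide
    · intro y y1 y2 y3
      have e4 := h3 y (by
        rw [hM y a, hM y b, hM y c, hM y d, ← y1, ← y2, ← y3]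
        generalize M a y = s
        revert s
        decide)
      rw [hM y a, hM y b, hM y c, hM y d, ← y1, ← y2, ← y3, hM y g] at e4
      clear ea eb ec ed h2 h3
      revert e4 h1
      generalize M a y = x
      generalize M g y = y
      generalize σ a = s
      generalize σ b = t
      generalize σ c = p
      generalize σ d = q
      revert x y s t p q
      decide

end Pool.Agent.H77.P3
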