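import Pool.Agent.H62.Ind.Main
import Pool.Agent.H62.Ind.P3
import Pool.Agent.H26.P3.End
import Pool.Agent.H77.P3.CodeSide

set_option autoImplicit false

/-!
Assembly of target (C) of MP_a46c6f_co: an indecomposable weight of a permutation graph is the
Petersen weight.
-/

namespace Pool.Agent.H77.P3

open SimpleGraph Pool.Agent.H5.Goddyn Pool.Agent.H98.TC Pool.Agent.H64.Pent Pool.Agent.H98.Code
open Pool.Agent.H57.Code

/-- the rooted tree theorem -/
theorem rootedTree : Pool.Agent.H62.Ind.RootedTree :=
  Pool.Agent.H17.P3.hT_of Pool.Agent.H62.Ind.p3 codeSide Pool.Agent.H26.P3.tree_end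

/-- an indecomposable weight of a permutation graph is the Petersen weight -/
theorem indecomposable_petersen {V : Type*} [Finite V] (G : SimpleGraph V)
    (M C₁ C₂ : G.Subgraph) (h : IsPermutationGraph G M C₁ C₂) (hind : Indecomposable G (wt M)) :
    IsPetersenPair G M :=
  Pool.Agent.H62.Ind.main_of rootedTree G M C₁ C₂ h hind

end Pool.Agent.H77.P3
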